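import Mathlib
import Pool.Agent.W784.PS.Defs
import Pool.Agent.Helper88.RB.P_lsc_energy

set_option autoImplicit false
open MeasureTheory Set Filter Topology
open scoped ENNReal NNReal

namespace Pool.Agent.W329.PS

open Pool.Agent.Helper88.RB

section aux

variable {n : ℕ}

theorem map_energy {K : Set (E n)} (hKm : MeasurableSet K) {k : E n × E n → ℝ≥0∞}
    (hk : Continuous k) (ν : Measure K) [SFinite ν] :
    ∫⁻ x, ∫⁻ y, k (x, y) ∂(ν.map Subtype.val) ∂(ν.map Subtype.val)
      = ∫⁻ p, k ((p.1 : E n), (p.2 : E n)) ∂(ν.prod ν) := by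
  have hemb : MeasurableEmbedding (Subtype.val : K → E n) := MeasurableEmbedding.subtype_coe hKm
  have hkc : Continuous (fun p : K × K => k ((p.1 : E n), (p.2 : E n))) :=
    hk.comp ((continuous_subtype_val.comp continuous_fst).prodMk
        (continuous_subtype_val.comp continuous_snd))
  rw [hemb.lintegral_map, lintegral_prod _ hkc.measurable.aemeasurable]
  refine lintegral_congr fun x => ?_
  rw [hemb.lintegral_map]

theorem comap_prob {K : Set (E n)} (hKm : MeasurableSet K) {μ : Measure (E n)}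
    (h1 : μ univ = 1) (h2 : μ Kᶜ = 0) :
    IsProbabilityMeasure (μ.comap (Subtype.val : K → E n)) ∧
      (μ.comap (Subtype.val : K → E n)).map Subtype.val = μ := by
  have hemb : MeasurableEmbedding (Subtype.val : K → E n) := MeasurableEmbedding.subtype_coe hKm
  constructor
  · refine ⟨?_⟩
    rw [hemb.comap_apply]
    simp only [Set.image_univ, Subtype.range_coe]
    have := measure_add_measure_compl (μ := μ) hKm
    rw [h1, h2, add_zero] at this
    exact this
  · rw [hemb.map_comap, Subtype.range_coe]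
    refine Measure.restrict_eq_self_of_ae_mem ?_
    rw [ae_iff]
    exact h2

end aux

theorem exists_min_gen {n : ℕ} (k : E n × E n → ℝ≥0∞) (hk : Continuous k) {K : Set (E n)}
    (hK : IsCompact K) (hne : K.Nonempty) :
    ∃ μ : Measure (E n), μ univ = 1 ∧ μ Kᶜ = 0 ∧ ∀ σ : Measure (E n), σ univ = 1 → σ Kᶜ = 0 →
      ∫⁻ x, ∫⁻ y, k (x, y) ∂μ ∂μ ≤ ∫⁻ x, ∫⁻ y, k (x, y) ∂σ ∂σ := by
  have : CompactSpace K := isCompact_iff_compactSpace.1 hK
  obtain ⟨x0, hx0⟩ := hne
  have hKm : MeasurableSet K := hK.measurableSet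
  have hkc : Continuous (fun p : K × K => k ((p.1 : E n), (p.2 : E n))) :=
    hk.comp ((continuous_subtype_val.comp continuous_fst).prodMk
        (continuous_subtype_val.comp continuous_snd))
  have hlsc := lsc_energy _ hkc
  have : Nonempty (ProbabilityMeasure K) :=
    ⟨⟨Measure.dirac (⟨x0, hx0⟩ : K), inferInstance⟩⟩
  obtain ⟨ν0, -, hmin⟩ := (hlsc.lowerSemicontinuousOn Set.univ).exists_isMinOn
    Set.univ_nonempty isCompact_univ
  have hemb : MeasurableEmbedding (Subtype.val : K → E n) := MeasurableEmbedding.subtype_coe hKm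
  refine ⟨(ν0 : Measure K).map Subtype.val, ?_, ?_, ?_⟩
  · rw [hemb.map_apply]; simp
  · rw [hemb.map_apply]; simp
  · intro σ h1 h2
    obtain ⟨hprob, hmap⟩ := comap_prob hKm h1 h2
    have hle := hmin (Set.mem_univ (⟨σ.comap (Subtype.val : K → E n), hprob⟩ : ProbabilityMeasure K))
    rw [map_energy hKm hk]
    conv_rhs => rw [← hmap]
    rw [map_energy hKm hk]
    exact hle

theorem limit_energy {n : ℕ} (k : E n × E n → ℝ≥0∞) (hk : Continuous k) {K : Set (E n)}
    (hK : IsCompact K) (hne : K.Nonempty) (t : ℝ≥0∞)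
    (h : ∀ j : ℕ, ∃ μ : Measure (E n), μ univ = 1 ∧
      μ (Metric.cthickening (1 / ((j : ℝ) + 1)) K)ᶜ = 0 ∧ ∫⁻ x, ∫⁻ y, k (x, y) ∂μ ∂μ ≤ t) :
    ∃ μ : Measure (E n), μ univ = 1 ∧ μ Kᶜ = 0 ∧ ∫⁻ x, ∫⁻ y, k (x, y) ∂μ ∂μ ≤ t := by
  set Q : Set (E n) := Metric.cthickening 1 K with hQ
  have hQc : IsCompact Q := hK.cthickening
  have : CompactSpace Q := isCompact_iff_compactSpace.1 hQc
  have hQm : MeasurableSet Q := hQc.measurableSet
  have hemb : MeasurableEmbedding (Subtype.val : Q → E n) := MeasurableEmbedding.subtype_coe hQm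
  have hkc : Continuous (fun p : Q × Q => k ((p.1 : E n), (p.2 : E n))) :=
    hk.comp ((continuous_subtype_val.comp continuous_fst).prodMk
        (continuous_subtype_val.comp continuous_snd))
  have hdc : Continuous (fun x : E n => ENNReal.ofReal (Metric.infDist x K)) :=
    ENNReal.continuous_ofReal.comp (Metric.continuous_infDist_pt K)
  have hd : Continuous (fun p : Q × Q => ENNReal.ofReal (Metric.infDist (p.1 : E n) K)) :=
    hdc.comp (continuous_subtype_val.comp continuous_fst)
  have hl1 := lsc_energy _ hkc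
  have hl2 := lsc_energy _ hd
  let M : ℕ → Set (ProbabilityMeasure Q) := fun j =>
    {ν | ∫⁻ p, k ((p.1 : E n), (p.2 : E n)) ∂((ν : Measure Q).prod (ν : Measure Q)) ≤ t} ∩
    {ν | ∫⁻ p, ENNReal.ofReal (Metric.infDist (p.1 : E n) K) ∂((ν : Measure Q).prod (ν : Measure Q))
      ≤ ENNReal.ofReal (1 / ((j : ℝ) + 1))}
  have hM : ∀ j, IsClosed (M j) := fun j =>
    (hl1.isClosed_preimage t).inter (hl2.isClosed_preimage _)
  have hanti : ∀ j, M (j + 1) ⊆ M j := by
    intro j ν hν
    refine ⟨hν.1, hν.2.trans (ENNReal.ofReal_le_ofReal ?_)⟩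
    push_cast
    apply one_div_le_one_div_of_le
    · positivity
    · linarith
  have hsub : ∀ j : ℕ, Metric.cthickening (1 / ((j : ℝ) + 1)) K ⊆ Q := by
    intro j
    apply Metric.cthickening_mono
    rw [div_le_one (by positivity)]
    have : (0 : ℝ) ≤ j := Nat.cast_nonneg j
    linarith
  have hdist : ∀ ν : ProbabilityMeasure Q,
      ∫⁻ p, ENNReal.ofReal (Metric.infDist (p.1 : E n) K) ∂((ν : Measure Q).prod (ν : Measure Q))
      = ∫⁻ x : Q, ENNReal.ofReal (Metric.infDist (x : E n) K) ∂(ν : Measure Q) := by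
    intro ν
    rw [lintegral_prod _ hd.measurable.aemeasurable]
    simp
  have hnon : ∀ j, (M j).Nonempty := by
    intro j
    obtain ⟨μ, h1, h2, h3⟩ := h j
    have h2' : μ Qᶜ = 0 := measure_mono_null (compl_subset_compl.2 (hsub j)) h2
    obtain ⟨hprob, hmap⟩ := comap_prob hQm h1 h2'
    refine ⟨⟨μ.comap (Subtype.val : Q → E n), hprob⟩, ?_, ?_⟩
    · rw [← hmap, map_energy hQm hk] at h3
      exact h3
    · change ∫⁻ p, ENNReal.ofReal (Metric.infDist (p.1 : E n) K)
        ∂((μ.comap (Subtype.val : Q → E n)).prod (μ.comap (Subtype.val : Q → E n)))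
          ≤ ENNReal.ofReal (1 / ((j : ℝ) + 1))
      have hdd : ∫⁻ p, ENNReal.ofReal (Metric.infDist (p.1 : E n) K)
          ∂((μ.comap (Subtype.val : Q → E n)).prod (μ.comap (Subtype.val : Q → E n)))
          = ∫⁻ x : Q, ENNReal.ofReal (Metric.infDist (x : E n) K)
            ∂(μ.comap (Subtype.val : Q → E n)) :=
        hdist (⟨μ.comap (Subtype.val : Q → E n), hprob⟩ : ProbabilityMeasure Q)
      rw [hdd]
      have hae : ∀ᵐ x : Q ∂(μ.comap (Subtype.val : Q → E n)),
          ENNReal.ofReal (Metric.infDist (x : E n) K) ≤ ENNReal.ofReal (1 / ((j : ℝ) + 1)) := by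
        have hμ : ∀ᵐ x ∂μ, x ∈ Metric.cthickening (1 / ((j : ℝ) + 1)) K := by
          rw [ae_iff]; exact h2
        rw [← hmap] at hμ
        have := (hemb.ae_map_iff).1 hμ
        filter_upwards [this] with x hx
        apply ENNReal.ofReal_le_ofReal
        have hx' := (Metric.mem_cthickening_iff).1 hx
        rw [Metric.infDist]
        exact ENNReal.toReal_le_of_le_ofReal (by positivity) hx'
      calc ∫⁻ x : Q, ENNReal.ofReal (Metric.infDist (x : E n) K) ∂(μ.comap (Subtype.val : Q → E n))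
          ≤ ∫⁻ _ : Q, ENNReal.ofReal (1 / ((j : ℝ) + 1)) ∂(μ.comap (Subtype.val : Q → E n)) :=
            lintegral_mono_ae hae
        _ = ENNReal.ofReal (1 / ((j : ℝ) + 1)) := by simp
  obtain ⟨ν, hν⟩ := IsCompact.nonempty_iInter_of_sequence_nonempty_isCompact_isClosed M
    hanti hnon (hM 0).isCompact hM
  rw [mem_iInter] at hν
  refine ⟨(ν : Measure Q).map Subtype.val, ?_, ?_, ?_⟩
  · rw [hemb.map_apply]; simp
  · have hzero : ∫⁻ x : Q, ENNReal.ofReal (Metric.infDist (x : E n) K) ∂(ν : Measure Q) = 0 := by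
      rw [← nonpos_iff_eq_zero]
      have hb : ∀ j : ℕ, ∫⁻ x : Q, ENNReal.ofReal (Metric.infDist (x : E n) K) ∂(ν : Measure Q)
          ≤ ENNReal.ofReal (1 / ((j : ℝ) + 1)) := by
        intro j
        rw [← hdist]
        exact (hν j).2
      have hlim : Tendsto (fun j : ℕ => ENNReal.ofReal (1 / ((j : ℝ) + 1))) atTop (𝓝 0) := by
        rw [← ENNReal.ofReal_zero]
        exact (ENNReal.continuous_ofReal.tendsto 0).comp tendsto_one_div_add_atTop_nhds_zero_nat
      exact ge_of_tendsto' hlim hb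
    have hmeas : Measurable (fun x : Q => ENNReal.ofReal (Metric.infDist (x : E n) K)) :=
      (hdc.comp continuous_subtype_val).measurable
    rw [lintegral_eq_zero_iff hmeas] at hzero
    suffices hae : ∀ᵐ x ∂((ν : Measure Q).map Subtype.val), x ∈ K by
      rw [ae_iff] at hae
      exact hae
    rw [hemb.ae_map_iff]
    filter_upwards [hzero] with x hx
    simp only [Pi.zero_apply, ENNReal.ofReal_eq_zero] at hx
    have h0 : Metric.infDist (x : E n) K = 0 := le_antisymm hx Metric.infDist_nonneg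
    exact (hK.isClosed.mem_iff_infDist_zero hne).2 h0
  · rw [map_energy hQm hk]
    exact (hν 0).1

end Pool.Agent.W329.PS
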