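import Mathlib
import Pool.Agent.W784.PS.Defs

set_option autoImplicit false
open MeasureTheory Set Filter Topology
open scoped ENNReal NNReal ComplexConjugate

namespace Pool.Agent.W329.PS

section core

variable {α : Type*} [MeasurableSpace α]

theorem core_log (μ : Measure α) [IsProbabilityMeasure μ] (e : α → ℂ) (he : Measurable e)
    {r R : ℝ} (hr : 0 < r) (hR : r < R) (hb : ∀ᵐ x ∂μ, ‖e x‖ ≤ r) :
    Integrable (fun p : α × α => Real.log ‖1 - e p.1 * conj (e p.2) / (R : ℂ) ^ 2‖) (μ.prod μ) ∧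
    ∫ p : α × α, Real.log ‖1 - e p.1 * conj (e p.2) / (R : ℂ) ^ 2‖ ∂(μ.prod μ) ≤ 0 := by
  have hR0 : 0 < R := hr.trans hR
  set q : ℝ := (r / R) ^ 2 with hq
  have hq0 : 0 ≤ q := by positivity
  have hq1 : q < 1 := by
    rw [hq]
    have : r / R < 1 := (div_lt_one hR0).2 hR
    have h0 : 0 ≤ r / R := by positivity
    nlinarith
  set u : α × α → ℂ := fun p => e p.1 * conj (e p.2) / (R : ℂ) ^ 2 with hu
  have hum : Measurable u := by
    rw [hu]
    have h1 : Measurable fun p : α × α => e p.1 := he.comp measurable_fst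
    have h2 : Measurable fun p : α × α => conj (e p.2) :=
      (Complex.continuous_conj.measurable).comp (he.comp measurable_snd)
    exact (h1.mul h2).div_const _
  have hub : ∀ᵐ p ∂(μ.prod μ), ‖u p‖ ≤ q := by
    have h1 : ∀ᵐ p ∂(μ.prod μ), ‖e p.1‖ ≤ r := Measure.quasiMeasurePreserving_fst.ae hb
    have h2 : ∀ᵐ p ∂(μ.prod μ), ‖e p.2‖ ≤ r := Measure.quasiMeasurePreserving_snd.ae hb
    filter_upwards [h1, h2] with p h1 h2
    rw [hu, hq]
    simp only [norm_div, norm_mul, norm_pow, Complex.norm_real, RCLike.norm_conj,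
      Real.norm_eq_abs, abs_of_pos hR0, div_pow]
    gcongr
    calc ‖e p.1‖ * ‖e p.2‖ ≤ r * r := by gcongr
      _ = r ^ 2 := by ring
  set F : ℕ → α × α → ℂ := fun n p => u p ^ n / n with hF
  have hFb : ∀ n, ∀ᵐ p ∂(μ.prod μ), ‖F n p‖ ≤ q ^ n := by
    intro n
    filter_upwards [hub] with p hp
    rw [hF]
    simp only [norm_div, norm_pow, Complex.norm_natCast]
    rcases Nat.eq_zero_or_pos n with rfl | hn
    · simp
    · calc ‖u p‖ ^ n / n ≤ ‖u p‖ ^ n / 1 := by
            gcongr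
            exact_mod_cast hn
        _ ≤ q ^ n := by rw [div_one]; gcongr
  have hFm : ∀ n, Measurable (F n) := fun n => (hum.pow_const n).div_const _
  have hFi : ∀ n, Integrable (F n) (μ.prod μ) := fun n =>
    Integrable.of_bound (hFm n).aestronglyMeasurable (q ^ n) (hFb n)
  have hFs : Summable fun n => ∫ p, ‖F n p‖ ∂(μ.prod μ) := by
    refine Summable.of_nonneg_of_le (fun n => integral_nonneg fun p => norm_nonneg _) (fun n => ?_)
      (summable_geometric_of_lt_one hq0 hq1)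
    calc ∫ p, ‖F n p‖ ∂(μ.prod μ) ≤ ∫ p, q ^ n ∂(μ.prod μ) :=
          integral_mono_ae (hFi n).norm (integrable_const _) (hFb n)
      _ = q ^ n := by simp
  have hsum := hasSum_integral_of_summable_integral_norm hFi hFs
  have hts : ∀ᵐ p ∂(μ.prod μ), ∑' n, F n p = -Complex.log (1 - u p) := by
    filter_upwards [hub] with p hp
    exact (Complex.hasSum_taylorSeries_neg_log (hp.trans_lt hq1)).tsum_eq
  have hlogm : Measurable fun p => Complex.log (1 - u p) :=
    Complex.measurable_log.comp (measurable_const.sub hum)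
  have hlogb : ∀ᵐ p ∂(μ.prod μ), ‖Complex.log (1 - u p)‖ ≤ (1 - q)⁻¹ := by
    filter_upwards [hts, ae_all_iff.2 hFb] with p h1 h2
    rw [← norm_neg, ← h1]
    exact tsum_of_norm_bounded (hasSum_geometric_of_lt_one hq0 hq1) h2
  have hlogi : Integrable (fun p => Complex.log (1 - u p)) (μ.prod μ) :=
    Integrable.of_bound hlogm.aestronglyMeasurable _ hlogb
  have hre : ∀ p, Real.log ‖1 - u p‖ = (Complex.log (1 - u p)).re := fun p =>
    (Complex.log_re _).symm
  have hterm : ∀ n, 0 ≤ (∫ p, F n p ∂(μ.prod μ)).re := by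
    intro n
    have h1 : ∀ p : α × α, F n p = (e p.1 ^ n / ((R : ℂ) ^ 2) ^ n) * (conj (e p.2 ^ n) / n) := by
      intro p
      simp only [hF, hu]
      rw [div_pow, mul_pow, map_pow]
      ring
    have h2 : ∫ p, F n p ∂(μ.prod μ) =
        (∫ x, e x ^ n / ((R : ℂ) ^ 2) ^ n ∂μ) * ∫ y, conj (e y ^ n) / n ∂μ := by
      simp_rw [h1]
      exact integral_prod_mul (fun x => e x ^ n / ((R : ℂ) ^ 2) ^ n) (fun y => conj (e y ^ n) / n)
    rw [h2, integral_div, integral_div, integral_conj]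
    set I := ∫ x, e x ^ n ∂μ
    have h3 : I / ((R : ℂ) ^ 2) ^ n * (conj I / (n : ℂ)) =
        ((Complex.normSq I / ((R ^ 2) ^ n * n) : ℝ) : ℂ) := by
      push_cast
      rw [← Complex.mul_conj]
      ring
    rw [h3, Complex.ofReal_re]
    have := Complex.normSq_nonneg I
    positivity
  constructor
  · have := hlogi.re
    refine this.congr (Eventually.of_forall fun p => ?_)
    exact (hre p).symm
  · have h1 : ∫ p, Real.log ‖1 - u p‖ ∂(μ.prod μ) = (∫ p, Complex.log (1 - u p) ∂(μ.prod μ)).re := by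
      simp_rw [hre]
      exact integral_re hlogi
    rw [h1]
    have h2 : ∫ p, Complex.log (1 - u p) ∂(μ.prod μ) = - ∫ p, ∑' n, F n p ∂(μ.prod μ) := by
      rw [← integral_neg]
      refine integral_congr_ae ?_
      filter_upwards [hts] with p hp
      rw [hp, neg_neg]
    rw [h2, Complex.neg_re]
    have h3 : HasSum (fun n => (∫ p, F n p ∂(μ.prod μ)).re) (∫ p, ∑' n, F n p ∂(μ.prod μ)).re :=
      Complex.hasSum_re hsum
    have := h3.nonneg hterm
    linarith

/-- Pointwise comparison. -/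
theorem log_dist_le {r R : ℝ} (hr : 0 < r) (hR : r < R) {z w : ℂ} (hz : ‖z‖ ≤ r) (hw : ‖w‖ ≤ r)
    (hne : z ≠ w) :
    Real.log ‖z - w‖ ≤ Real.log R + Real.log ‖1 - z * conj w / (R : ℂ) ^ 2‖ := by
  have hR0 : 0 < R := hr.trans hR
  have h0 : 0 < ‖z - w‖ := norm_pos_iff.2 (sub_ne_zero.2 hne)
  have hRc : (R : ℂ) ≠ 0 := by exact_mod_cast hR0.ne'
  have key : ‖z - w‖ ≤ R * ‖1 - z * conj w / (R : ℂ) ^ 2‖ := by
    have h1 : R * ‖1 - z * conj w / (R : ℂ) ^ 2‖ = ‖(R : ℂ) ^ 2 - z * conj w‖ / R := by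
      have : (1 - z * conj w / (R : ℂ) ^ 2) = ((R : ℂ) ^ 2 - z * conj w) / (R : ℂ) ^ 2 := by
        field_simp
      rw [this, norm_div, norm_pow, Complex.norm_real, Real.norm_eq_abs, abs_of_pos hR0]
      field_simp
    rw [h1, le_div_iff₀ hR0]
    refine le_of_sq_le_sq ?_ (norm_nonneg _)
    rw [mul_pow, ← Complex.normSq_eq_norm_sq, ← Complex.normSq_eq_norm_sq]
    have hz2 : Complex.normSq z ≤ R ^ 2 := by
      rw [Complex.normSq_eq_norm_sq]
      nlinarith [norm_nonneg z]
    have hw2 : Complex.normSq w ≤ R ^ 2 := by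
      rw [Complex.normSq_eq_norm_sq]
      nlinarith [norm_nonneg w]
    have hid : Complex.normSq ((R : ℂ) ^ 2 - z * conj w) - Complex.normSq (z - w) * R ^ 2 =
        (R ^ 2 - Complex.normSq z) * (R ^ 2 - Complex.normSq w) := by
      rw [← Complex.ofReal_pow]
      simp only [Complex.normSq_apply, Complex.sub_re, Complex.sub_im, Complex.mul_re,
        Complex.mul_im, Complex.conj_re, Complex.conj_im, Complex.ofReal_re, Complex.ofReal_im]
      ring
    nlinarith [mul_nonneg (sub_nonneg.2 hz2) (sub_nonneg.2 hw2)]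
  have hpos : 0 < ‖1 - z * conj w / (R : ℂ) ^ 2‖ := by
    by_contra h
    have : ‖1 - z * conj w / (R : ℂ) ^ 2‖ = 0 := le_antisymm (not_lt.1 h) (norm_nonneg _)
    rw [this, mul_zero] at key
    linarith
  rw [← Real.log_mul hR0.ne' hpos.ne']
  exact Real.log_le_log h0 key

end core

theorem disk_log (c : EuclideanSpace ℝ (Fin 2)) (r : ℝ) (hr : 0 < r)
    (μ : Measure (EuclideanSpace ℝ (Fin 2))) [IsProbabilityMeasure μ]
    (hμ : μ (Metric.closedBall c r)ᶜ = 0)
    (hneg : ∫⁻ x, ∫⁻ y, (if x = y then (⊤ : ℝ≥0∞) else ENNReal.ofReal (-Real.log (dist x y))) ∂μ ∂μ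
      ≠ ⊤) :
    (∫⁻ x, ∫⁻ y, ENNReal.ofReal (Real.log (dist x y)) ∂μ ∂μ).toReal
      - (∫⁻ x, ∫⁻ y, (if x = y then (⊤ : ℝ≥0∞) else ENNReal.ofReal (-Real.log (dist x y)))
        ∂μ ∂μ).toReal ≤ Real.log r := by
  set e : EuclideanSpace ℝ (Fin 2) → ℂ := fun x => Complex.orthonormalBasisOneI.repr.symm (x - c)
    with he
  have hec : Continuous e :=
    Complex.orthonormalBasisOneI.repr.symm.continuous.comp (continuous_id.sub continuous_const)
  have hem : Measurable e := hec.measurable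
  have hed : ∀ x y, ‖e x - e y‖ = dist x y := by
    intro x y
    rw [he]
    simp only
    rw [← map_sub, LinearIsometryEquiv.norm_map, dist_eq_norm]
    congr 1
    abel
  have hen : ∀ x, ‖e x‖ = dist x c := by
    intro x
    rw [he]
    simp only
    rw [LinearIsometryEquiv.norm_map, dist_eq_norm]
  have hb : ∀ᵐ x ∂μ, ‖e x‖ ≤ r := by
    have : ∀ᵐ x ∂μ, x ∈ Metric.closedBall c r := by
      rw [ae_iff]
      exact hμ
    filter_upwards [this] with x hx
    rw [hen]
    exact hx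
  have hk : Measurable fun p : EuclideanSpace ℝ (Fin 2) × EuclideanSpace ℝ (Fin 2) =>
      (if p.1 = p.2 then (⊤ : ℝ≥0∞) else ENNReal.ofReal (-Real.log (dist p.1 p.2))) := by
    refine Measurable.ite ?_ measurable_const ?_
    · exact (isClosed_eq continuous_fst continuous_snd).measurableSet
    · exact ((Real.measurable_log.comp (measurable_fst.dist measurable_snd)).neg).ennreal_ofReal
  have hgm : Measurable fun p : EuclideanSpace ℝ (Fin 2) × EuclideanSpace ℝ (Fin 2) =>
      Real.log (dist p.1 p.2) := Real.measurable_log.comp (measurable_fst.dist measurable_snd)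
  have hprodneg : ∫⁻ x, ∫⁻ y, (if x = y then (⊤ : ℝ≥0∞) else
      ENNReal.ofReal (-Real.log (dist x y))) ∂μ ∂μ =
      ∫⁻ p, (if p.1 = p.2 then (⊤ : ℝ≥0∞) else ENNReal.ofReal (-Real.log (dist p.1 p.2)))
        ∂(μ.prod μ) := (lintegral_prod _ hk.aemeasurable).symm
  have hprodpos : ∫⁻ x, ∫⁻ y, ENNReal.ofReal (Real.log (dist x y)) ∂μ ∂μ =
      ∫⁻ p, ENNReal.ofReal (Real.log (dist p.1 p.2)) ∂(μ.prod μ) :=
    (lintegral_prod _ hgm.ennreal_ofReal.aemeasurable).symm
  rw [hprodneg] at hneg ⊢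
  rw [hprodpos]
  -- the diagonal is null
  have hdiag : ∀ᵐ p ∂(μ.prod μ), p.1 ≠ p.2 := by
    filter_upwards [ae_lt_top hk hneg] with p hp hpp
    rw [if_pos hpp] at hp
    exact lt_irrefl _ hp
  have hnegeq : ∫⁻ p, (if p.1 = p.2 then (⊤ : ℝ≥0∞) else
      ENNReal.ofReal (-Real.log (dist p.1 p.2))) ∂(μ.prod μ) =
      ∫⁻ p, ENNReal.ofReal (-Real.log (dist p.1 p.2)) ∂(μ.prod μ) := by
    refine lintegral_congr_ae ?_
    filter_upwards [hdiag] with p hp
    rw [if_neg hp]
  rw [hnegeq] at hneg ⊢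
  have hb1 : ∀ᵐ p ∂(μ.prod μ), ‖e p.1‖ ≤ r := Measure.quasiMeasurePreserving_fst.ae hb
  have hb2 : ∀ᵐ p ∂(μ.prod μ), ‖e p.2‖ ≤ r := Measure.quasiMeasurePreserving_snd.ae hb
  have hpos : ∫⁻ p, ENNReal.ofReal (Real.log (dist p.1 p.2)) ∂(μ.prod μ) ≠ ⊤ := by
    have : ∫⁻ p, ENNReal.ofReal (Real.log (dist p.1 p.2)) ∂(μ.prod μ) ≤
        ∫⁻ p, ENNReal.ofReal (2 * r) ∂(μ.prod μ) := by
      refine lintegral_mono_ae ?_
      filter_upwards [hb1, hb2] with p h1 h2
      refine ENNReal.ofReal_le_ofReal ?_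
      rw [← hed]
      calc Real.log ‖e p.1 - e p.2‖ ≤ ‖e p.1 - e p.2‖ := Real.log_le_self (norm_nonneg _)
        _ ≤ ‖e p.1‖ + ‖e p.2‖ := norm_sub_le _ _
        _ ≤ 2 * r := by linarith
    refine ne_top_of_le_ne_top ?_ this
    rw [lintegral_const, measure_univ, mul_one]
    exact ENNReal.ofReal_ne_top
  have hint : Integrable (fun p : EuclideanSpace ℝ (Fin 2) × EuclideanSpace ℝ (Fin 2) =>
      Real.log (dist p.1 p.2)) (μ.prod μ) := by
    refine ⟨hgm.aestronglyMeasurable, ?_⟩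
    rw [hasFiniteIntegral_iff_norm]
    have : ∀ p : EuclideanSpace ℝ (Fin 2) × EuclideanSpace ℝ (Fin 2),
        ENNReal.ofReal ‖Real.log (dist p.1 p.2)‖ ≤ ENNReal.ofReal (Real.log (dist p.1 p.2)) +
          ENNReal.ofReal (-Real.log (dist p.1 p.2)) := by
      intro p
      rw [Real.norm_eq_abs]
      rcases le_total 0 (Real.log (dist p.1 p.2)) with h | h
      · rw [abs_of_nonneg h]
        exact le_self_add
      · rw [abs_of_nonpos h]
        exact le_add_self
    refine (lintegral_mono this).trans_lt ?_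
    rw [lintegral_add_left hgm.ennreal_ofReal]
    exact ENNReal.add_lt_top.2 ⟨hpos.lt_top, hneg.lt_top⟩
  rw [← integral_eq_lintegral_pos_part_sub_lintegral_neg_part hint]
  have hall : ∀ R : ℝ, r < R → ∫ p, Real.log (dist p.1 p.2) ∂(μ.prod μ) ≤ Real.log R := by
    intro R hR
    obtain ⟨hci, hcle⟩ := core_log μ e hem hr hR hb
    calc ∫ p, Real.log (dist p.1 p.2) ∂(μ.prod μ)
        ≤ ∫ p : EuclideanSpace ℝ (Fin 2) × EuclideanSpace ℝ (Fin 2),
            (Real.log R + Real.log ‖1 - e p.1 * conj (e p.2) / (R : ℂ) ^ 2‖) ∂(μ.prod μ) := by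
          refine integral_mono_ae hint ((integrable_const _).add hci) ?_
          filter_upwards [hb1, hb2, hdiag] with p h1 h2 h3
          rw [← hed]
          refine log_dist_le hr hR h1 h2 ?_
          intro h4
          apply h3
          have := hed p.1 p.2
          rw [h4, sub_self, norm_zero] at this
          exact dist_eq_zero.1 this.symm
      _ = Real.log R + ∫ p : EuclideanSpace ℝ (Fin 2) × EuclideanSpace ℝ (Fin 2),
            Real.log ‖1 - e p.1 * conj (e p.2) / (R : ℂ) ^ 2‖ ∂(μ.prod μ) := by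
          rw [integral_add (integrable_const _) hci]
          simp
      _ ≤ Real.log R := by linarith
  have ht : Tendsto Real.log (𝓝[>] r) (𝓝 (Real.log r)) :=
    (Real.continuousAt_log hr.ne').tendsto.mono_left nhdsWithin_le_nhds
  exact ge_of_tendsto ht (eventually_nhdsWithin_of_forall fun R hR => hall R hR)

end Pool.Agent.W329.PS
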