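import Mathlib
import Pool.Agent.W784.PS.Defs

set_option autoImplicit false
open MeasureTheory Set Filter Topology
open scoped ENNReal NNReal

namespace Pool.Agent.W329.PS

theorem lint_of_deriv {a b : ℝ} (hab : a ≤ b) {F f : ℝ → ℝ} (hcont : ContinuousOn F (Icc a b))
    (hderiv : ∀ x ∈ Ioo a b, HasDerivAt F (f x) x) (hpos : ∀ x ∈ Ioo a b, 0 ≤ f x) :
    ∫⁻ x in Ioo a b, ENNReal.ofReal (f x) = ENNReal.ofReal (F b - F a) := by
  have hint : IntegrableOn f (Ioc a b) :=
    intervalIntegral.integrableOn_deriv_of_nonneg hcont hderiv hpos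
  have hint2 : IntegrableOn f (Ioo a b) := hint.mono_set Ioo_subset_Ioc_self
  have hI : IntervalIntegrable f volume a b :=
    (intervalIntegrable_iff_integrableOn_Ioc_of_le hab).2 hint
  rw [← intervalIntegral.integral_eq_sub_of_hasDerivAt_of_le hab hcont hderiv hI,
    intervalIntegral.integral_of_le hab, integral_Ioc_eq_integral_Ioo]
  rw [ofReal_integral_eq_lintegral_ofReal hint2]
  filter_upwards [ae_restrict_mem measurableSet_Ioo] with x hx
  exact hpos x hx

theorem lint_eq_set {f : ℝ → ℝ≥0∞} {s : Set ℝ} (hs : MeasurableSet s) (h : ∀ x, x ∉ s → f x = 0) :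
    ∫⁻ t, f t = ∫⁻ t in s, f t := by
  rw [← lintegral_indicator hs]
  refine lintegral_congr fun x => ?_
  by_cases hx : x ∈ s
  · rw [indicator_of_mem hx]
  · rw [indicator_of_notMem hx, h x hx]

theorem sub_sq_pos {r t : ℝ} (ht : t ∈ Ioo (-r) r) : 0 < r ^ 2 - t ^ 2 := by
  have h1 : 0 < r - t := by linarith [ht.2]
  have h2 : 0 < r + t := by linarith [ht.1]
  nlinarith [mul_pos h1 h2]

theorem sub_sq_nonpos {r t : ℝ} (hr : 0 ≤ r) (ht : t ∉ Ioo (-r) r) : r ^ 2 - t ^ 2 ≤ 0 := by
  rw [mem_Ioo, not_and_or, not_lt, not_lt] at ht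
  rcases ht with h | h
  · nlinarith
  · nlinarith

theorem arcsin_div {r t : ℝ} (hr : 0 < r) (ht : t ∈ Ioo (-r) r) :
    HasDerivAt (fun t : ℝ => Real.arcsin (t / r)) ((Real.sqrt (r ^ 2 - t ^ 2))⁻¹) t := by
  have hx1 : t / r ≠ -1 := by
    intro h
    rw [div_eq_iff hr.ne'] at h
    linarith [ht.1]
  have hx2 : t / r ≠ 1 := by
    intro h
    rw [div_eq_iff hr.ne'] at h
    linarith [ht.2]
  have h1 := (Real.hasDerivAt_arcsin hx1 hx2).comp t ((hasDerivAt_id t).div_const r)
  have he : 1 / Real.sqrt (1 - (t / r) ^ 2) * (1 / r) = (Real.sqrt (r ^ 2 - t ^ 2))⁻¹ := by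
    have : r ^ 2 - t ^ 2 = r ^ 2 * (1 - (t / r) ^ 2) := by field_simp
    rw [this, Real.sqrt_mul (by positivity), Real.sqrt_sq hr.le, mul_inv]
    rw [one_div, one_div]
    ring
  have h2 : HasDerivAt (fun t : ℝ => Real.arcsin (t / r)) (1 / Real.sqrt (1 - (t / r) ^ 2) * (1 / r)) t :=
    h1
  rwa [he] at h2

theorem sqrt_sub {r t : ℝ} (ht : t ∈ Ioo (-r) r) :
    HasDerivAt (fun t : ℝ => Real.sqrt (r ^ 2 - t ^ 2)) (-(t * (Real.sqrt (r ^ 2 - t ^ 2))⁻¹)) t := by
  have hp := sub_sq_pos ht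
  have h1 : HasDerivAt (fun t : ℝ => r ^ 2 - t ^ 2) (-(2 * t)) t := by
    have := (hasDerivAt_pow 2 t).const_sub (r ^ 2)
    simpa using this
  have h2 := h1.sqrt hp.ne'
  convert h2 using 1
  have : Real.sqrt (r ^ 2 - t ^ 2) ≠ 0 := (Real.sqrt_pos.2 hp).ne'
  field_simp

theorem chord_sqrt (κ : ℝ) : ∫⁻ t : ℝ, ENNReal.ofReal (Real.sqrt (κ - t ^ 2)) =
    ENNReal.ofReal (Real.pi / 2 * κ) := by
  rcases le_or_gt κ 0 with hκ | hκ
  · have h0 : ∀ t : ℝ, Real.sqrt (κ - t ^ 2) = 0 := fun t =>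
      Real.sqrt_eq_zero_of_nonpos (by nlinarith [sq_nonneg t])
    simp only [h0, ENNReal.ofReal_zero, lintegral_zero]
    symm
    rw [ENNReal.ofReal_eq_zero]
    nlinarith [Real.pi_pos]
  · obtain ⟨r, hr, rfl⟩ : ∃ r : ℝ, 0 < r ∧ κ = r ^ 2 :=
      ⟨Real.sqrt κ, Real.sqrt_pos.2 hκ, (Real.sq_sqrt hκ.le).symm⟩
    rw [lint_eq_set (s := Ioo (-r) r) measurableSet_Ioo (fun t ht => by
      rw [Real.sqrt_eq_zero_of_nonpos (sub_sq_nonpos hr.le ht), ENNReal.ofReal_zero])]
    have key := lint_of_deriv (a := -r) (b := r)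
      (F := fun t => (t * Real.sqrt (r ^ 2 - t ^ 2) + r ^ 2 * Real.arcsin (t / r)) / 2)
      (f := fun t => Real.sqrt (r ^ 2 - t ^ 2)) (by linarith)
      (by
        apply Continuous.continuousOn
        have h1 : Continuous fun t : ℝ => Real.sqrt (r ^ 2 - t ^ 2) := by fun_prop
        have h2 : Continuous fun t : ℝ => Real.arcsin (t / r) :=
          Real.continuous_arcsin.comp (continuous_id.div_const r)
        fun_prop)
      (by
        intro t ht
        have hp := sub_sq_pos ht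
        have hs : Real.sqrt (r ^ 2 - t ^ 2) ≠ 0 := (Real.sqrt_pos.2 hp).ne'
        have h1 := (hasDerivAt_id t).mul (sqrt_sub ht)
        have h2 := (arcsin_div hr ht).const_mul (r ^ 2)
        have h3 := (h1.add h2).div_const 2
        have h4 : (1 * Real.sqrt (r ^ 2 - t ^ 2) + id t * -(t * (Real.sqrt (r ^ 2 - t ^ 2))⁻¹)
            + r ^ 2 * (Real.sqrt (r ^ 2 - t ^ 2))⁻¹) / 2 = Real.sqrt (r ^ 2 - t ^ 2) := by
          have hq : Real.sqrt (r ^ 2 - t ^ 2) * Real.sqrt (r ^ 2 - t ^ 2) = r ^ 2 - t ^ 2 :=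
            Real.mul_self_sqrt hp.le
          simp only [id]
          field_simp
          nlinarith [hq]
        rw [h4] at h3
        exact h3)
      (fun t _ => Real.sqrt_nonneg _)
    rw [key]
    congr 1
    have e1 : r / r = 1 := div_self hr.ne'
    have e2 : -r / r = -1 := by rw [neg_div, e1]
    simp only [e1, e2, Real.arcsin_one, Real.arcsin_neg_one, neg_sq, sub_self, Real.sqrt_zero]
    ring

theorem chord_inv_sqrt (κ : ℝ) : ∫⁻ t : ℝ, ENNReal.ofReal ((Real.sqrt (κ - t ^ 2))⁻¹) ≤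
    ENNReal.ofReal Real.pi := by
  rcases le_or_gt κ 0 with hκ | hκ
  · have h0 : ∀ t : ℝ, Real.sqrt (κ - t ^ 2) = 0 := fun t =>
      Real.sqrt_eq_zero_of_nonpos (by nlinarith [sq_nonneg t])
    simp only [h0, inv_zero, ENNReal.ofReal_zero, lintegral_zero]
    exact bot_le
  · obtain ⟨r, hr, rfl⟩ : ∃ r : ℝ, 0 < r ∧ κ = r ^ 2 :=
      ⟨Real.sqrt κ, Real.sqrt_pos.2 hκ, (Real.sq_sqrt hκ.le).symm⟩
    rw [lint_eq_set (s := Ioo (-r) r) measurableSet_Ioo (fun t ht => by
      rw [Real.sqrt_eq_zero_of_nonpos (sub_sq_nonpos hr.le ht), inv_zero, ENNReal.ofReal_zero])]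
    have key := lint_of_deriv (a := -r) (b := r)
      (F := fun t => Real.arcsin (t / r))
      (f := fun t => (Real.sqrt (r ^ 2 - t ^ 2))⁻¹) (by linarith)
      (Real.continuous_arcsin.comp (continuous_id.div_const r)).continuousOn
      (fun t ht => arcsin_div hr ht)
      (fun t _ => inv_nonneg.2 (Real.sqrt_nonneg _))
    rw [key]
    apply le_of_eq
    congr 1
    have e1 : r / r = 1 := div_self hr.ne'
    have e2 : -r / r = -1 := by rw [neg_div, e1]
    simp only [e1, e2, Real.arcsin_one, Real.arcsin_neg_one]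
    ring

theorem abs_inv_sqrt (r : ℝ) (hr : 0 < r) :
    ∫⁻ t : ℝ, ENNReal.ofReal (|t| * (Real.sqrt (r ^ 2 - t ^ 2))⁻¹) = ENNReal.ofReal (2 * r) := by
  have hsub : Ioo (-r) 0 ∪ Ioo 0 r ⊆ Ioo (-r) r := by
    rintro t (h | h)
    · exact ⟨h.1, h.2.trans hr⟩
    · exact ⟨by linarith [h.1], h.2⟩
  rw [lint_eq_set (s := Ioo (-r) 0 ∪ Ioo 0 r) (measurableSet_Ioo.union measurableSet_Ioo)
    (fun t ht => by
      by_cases ht' : t ∈ Ioo (-r) r
      · have : t = 0 := by
          by_contra h0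
          rcases lt_or_gt_of_ne h0 with h | h
          · exact ht (Or.inl ⟨ht'.1, h⟩)
          · exact ht (Or.inr ⟨h, ht'.2⟩)
        rw [this, abs_zero, zero_mul, ENNReal.ofReal_zero]
      · rw [Real.sqrt_eq_zero_of_nonpos (sub_sq_nonpos hr.le ht'), inv_zero, mul_zero,
          ENNReal.ofReal_zero])]
  rw [lintegral_union measurableSet_Ioo (by
    rw [Set.disjoint_left]
    intro t h1 h2
    linarith [h1.2, h2.1])]
  have k1 := lint_of_deriv (a := -r) (b := 0)
      (F := fun t => Real.sqrt (r ^ 2 - t ^ 2))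
      (f := fun t => |t| * (Real.sqrt (r ^ 2 - t ^ 2))⁻¹) (by linarith)
      (by fun_prop)
      (fun t ht => by
        have := sqrt_sub (r := r) (t := t) ⟨ht.1, ht.2.trans hr⟩
        rw [abs_of_neg ht.2]
        rwa [← neg_mul] at this)
      (fun t _ => mul_nonneg (abs_nonneg _) (inv_nonneg.2 (Real.sqrt_nonneg _)))
  have k2 := lint_of_deriv (a := 0) (b := r)
      (F := fun t => -Real.sqrt (r ^ 2 - t ^ 2))
      (f := fun t => |t| * (Real.sqrt (r ^ 2 - t ^ 2))⁻¹) hr.le
      (by fun_prop)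
      (fun t ht => by
        have := (sqrt_sub (r := r) (t := t) ⟨by linarith [ht.1], ht.2⟩).neg
        rw [abs_of_pos ht.1]
        rwa [neg_neg] at this)
      (fun t _ => mul_nonneg (abs_nonneg _) (inv_nonneg.2 (Real.sqrt_nonneg _)))
  rw [k1, k2]
  simp only [neg_sq, sub_self, Real.sqrt_zero, ne_eq, OfNat.ofNat_ne_zero, not_false_eq_true,
    zero_pow, sub_zero, neg_zero, zero_sub, neg_neg, Real.sqrt_sq hr.le]
  rw [← ENNReal.ofReal_add hr.le hr.le]
  congr 1
  ring

theorem theta_int (α φ : ℝ) (h0 : 0 < α) (h1 : α < Real.pi / 2) :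
    ∫ θ in (-Real.pi)..Real.pi, max (Real.sin α ^ 2 - 1 + Real.cos (θ - φ) ^ 2) 0 =
      4 * α * Real.sin α ^ 2 - 2 * α + Real.sin (2 * α) := by
  set g : ℝ → ℝ := fun x => max (Real.sin α ^ 2 - Real.sin x ^ 2) 0 with hg
  have hgc : Continuous g := by
    have h := Real.continuous_sin
    rw [hg]
    fun_prop
  have hper : Function.Periodic g Real.pi := by
    intro x
    simp only [hg, Real.sin_add_pi, neg_sq]
  have e1 : ∫ θ in (-Real.pi)..Real.pi, max (Real.sin α ^ 2 - 1 + Real.cos (θ - φ) ^ 2) 0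
      = ∫ θ in (-Real.pi)..Real.pi, g (θ - φ) := by
    apply intervalIntegral.integral_congr
    intro θ _
    simp only [hg]
    congr 1
    have := Real.sin_sq_add_cos_sq (θ - φ)
    linarith
  rw [e1, intervalIntegral.integral_comp_sub_right (fun x => g x) φ]
  have hint : ∀ a b : ℝ, IntervalIntegrable g volume a b := fun a b => hgc.intervalIntegrable a b
  have e2 : ∫ x in (-Real.pi - φ)..(Real.pi - φ), g x
      = 2 * ∫ x in (-(Real.pi / 2))..(Real.pi / 2), g x := by
    rw [← intervalIntegral.integral_add_adjacent_intervals (hint (-Real.pi - φ) (-φ))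
      (hint (-φ) (Real.pi - φ))]
    have a1 := hper.intervalIntegral_add_eq (-Real.pi - φ) (-(Real.pi / 2))
    have a2 := hper.intervalIntegral_add_eq (-φ) (-(Real.pi / 2))
    have b1 : -Real.pi - φ + Real.pi = -φ := by ring
    have b2 : -(Real.pi / 2) + Real.pi = Real.pi / 2 := by ring
    have b3 : -φ + Real.pi = Real.pi - φ := by ring
    rw [b1, b2] at a1
    rw [b3, b2] at a2
    rw [a1, a2]
    ring
  rw [e2]
  have hα : -α ≤ α := by linarith
  rw [← intervalIntegral.integral_add_adjacent_intervals (hint (-(Real.pi / 2)) (-α))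
      (hint (-α) (Real.pi / 2)),
    ← intervalIntegral.integral_add_adjacent_intervals (hint (-α) α) (hint α (Real.pi / 2))]
  have hsα : 0 < Real.sin α := Real.sin_pos_of_pos_of_lt_pi h0 (by linarith [Real.pi_pos])
  have c1 : ∫ x in (-(Real.pi / 2))..(-α), g x = 0 := by
    have : ∫ x in (-(Real.pi / 2))..(-α), g x = ∫ x in (-(Real.pi / 2))..(-α), (0 : ℝ) := by
      apply intervalIntegral.integral_congr
      intro x hx
      rw [uIcc_of_le (by linarith)] at hx
      simp only [hg]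
      apply max_eq_right
      have : Real.sin x ≤ Real.sin (-α) :=
        Real.sin_le_sin_of_le_of_le_pi_div_two hx.1 (by linarith) hx.2
      rw [Real.sin_neg] at this
      nlinarith
    rw [this]; simp
  have c3 : ∫ x in α..(Real.pi / 2), g x = 0 := by
    have : ∫ x in α..(Real.pi / 2), g x = ∫ x in α..(Real.pi / 2), (0 : ℝ) := by
      apply intervalIntegral.integral_congr
      intro x hx
      rw [uIcc_of_le (by linarith)] at hx
      simp only [hg]
      apply max_eq_right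
      have : Real.sin α ≤ Real.sin x :=
        Real.sin_le_sin_of_le_of_le_pi_div_two (by linarith) hx.2 hx.1
      nlinarith
    rw [this]; simp
  have c2 : ∫ x in (-α)..α, g x = 2 * α * Real.sin α ^ 2 - α + Real.sin α * Real.cos α := by
    have : ∫ x in (-α)..α, g x = ∫ x in (-α)..α, (Real.sin α ^ 2 - Real.sin x ^ 2) := by
      apply intervalIntegral.integral_congr
      intro x hx
      rw [uIcc_of_le hα] at hx
      simp only [hg]
      apply max_eq_left
      have u1 : Real.sin x ≤ Real.sin α :=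
        Real.sin_le_sin_of_le_of_le_pi_div_two (by linarith [hx.1]) h1.le hx.2
      have u2 : Real.sin (-α) ≤ Real.sin x :=
        Real.sin_le_sin_of_le_of_le_pi_div_two (by linarith) (by linarith [hx.2]) hx.1
      rw [Real.sin_neg] at u2
      nlinarith
    rw [this, intervalIntegral.integral_sub (by simp) (by
      apply Continuous.intervalIntegrable; fun_prop), integral_sin_sq]
    simp only [intervalIntegral.integral_const, smul_eq_mul, Real.sin_neg, Real.cos_neg]
    ring
  rw [c1, c2, c3, Real.sin_two_mul]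
  ring

end Pool.Agent.W329.PS
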